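import Mathlib

set_option autoImplicit false

namespace Pool.Agent.Results.MP_2348bc_co.Pair

open List

/-- `ok m w`: each letter is positive and at most one more than the maximum of `m` and the
earlier letters. -/
def ok : ℕ → List ℕ → Prop
  | _, [] => True
  | m, x :: l => 1 ≤ x ∧ x ≤ m + 1 ∧ ok (max m x) l

/-- Restricted growth functions. -/
def RGF (w : List ℕ) : Prop := ok 0 w

/-- Two words of the same length are in the same relative order. -/
def Same (s v : List ℕ) : Prop := ∀ a < v.length, ∀ b < v.length,
  (s.getD a 0 < s.getD b 0 ↔ v.getD a 0 < v.getD b 0) ∧ (s.getD a 0 = s.getD b 0 ↔ v.getD a 0 = v.getD b 0)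

instance (s v : List ℕ) : Decidable (Same s v) := by unfold Same; infer_instance

/-- Number of copies of `v` in `w` (one subword for each set of positions). -/
def copies (v w : List ℕ) : ℕ := (w.sublistsLen v.length).countP (fun s => Same s v)

/-- Number of restricted growth functions of length `n` with exactly `k` copies of `v`. -/
noncomputable def R (n k : ℕ) (v : List ℕ) : ℕ := {w | RGF w ∧ w.length = n ∧ copies v w = k}.ncard

def mask (w : List ℕ) : List Bool := w.map (· == 1)
def rest (w : List ℕ) : List ℕ := (w.filter (· != 1)).map (· - 1)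
def merge : List Bool → List ℕ → List ℕ
  | [], _ => []
  | true :: m, u => 1 :: merge m u
  | false :: m, x :: u => (x + 1) :: merge m u
  | false :: _, [] => []

lemma ok_pos : ∀ (l : List ℕ) (m : ℕ), ok m l → ∀ x ∈ l, 1 ≤ x
  | [], _, _ => by simp
  | y :: l, m, h => by
    intro x hx
    rcases mem_cons.1 hx with rfl | hx
    exacts [h.1, ok_pos l _ h.2.2 x hx]

lemma ok_rest : ∀ (l : List ℕ) (m : ℕ), (∀ x ∈ l, 1 ≤ x) → (ok (m + 1) l ↔ ok m (rest l))
  | [], _, _ => by simp [ok, rest]
  | y :: l, m, h => by
    have h1 := h y (by simp)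
    have h2 : ∀ x ∈ l, 1 ≤ x := fun x hx => h x (by simp [hx])
    by_cases e : y = 1
    · subst e
      have : rest (1 :: l) = rest l := by simp [rest]
      rw [this, ← ok_rest l m h2]; simp [ok]
    · have : rest (y :: l) = (y - 1) :: rest l := by simp [rest, e]
      rw [this, ok, ok, ← ok_rest l _ h2, show max m (y - 1) + 1 = max (m + 1) y by omega]
      constructor <;> rintro ⟨a, b, c⟩ <;> exact ⟨by omega, by omega, c⟩

lemma merge_self : ∀ (l : List ℕ), (∀ x ∈ l, 1 ≤ x) → merge (mask l) (rest l) = l
  | [], _ => rfl
  | y :: l, h => by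
    have h1 := h y (by simp)
    have ih := merge_self l fun x hx => h x (by simp [hx])
    by_cases e : y = 1
    · subst e; simpa [mask, rest, merge] using ih
    · have : (y == 1) = false := by simpa using e
      simp only [mask, rest, map_cons, this, filter_cons, bne, Bool.not_false, if_true, merge] at *
      rw [ih]; congr 1; omega

lemma merge_spec : ∀ (m : List Bool) (u : List ℕ), m.count false = u.length → (∀ x ∈ u, 1 ≤ x) →
    mask (merge m u) = m ∧ rest (merge m u) = u ∧ ∀ x ∈ merge m u, 1 ≤ x
  | [], u, h, _ => by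
    have : u = [] := by simpa [eq_comm] using h
    simp [merge, mask, rest, this]
  | true :: m, u, h, h' => by
    have := merge_spec m u (by simpa using h) h'
    simpa [merge, mask, rest] using this
  | false :: m, [], h, _ => by simp at h
  | false :: m, x :: u, h, h' => by
    obtain ⟨a, b, c⟩ := merge_spec m u (by simpa using h) fun y hy => h' y (by simp [hy])
    have hx : x ≠ 0 := by have := h' x (by simp); omega
    refine ⟨by simpa [merge, mask, hx] using a, by simpa [merge, rest, hx] using b, ?_⟩
    simpa [merge] using c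

lemma len_rest (l : List ℕ) : (mask l).count false = (rest l).length := by
  induction l with
  | nil => rfl
  | cons y l ih =>
    by_cases e : y = 1
    · simp_all [mask, rest]
    · have : (y == 1) = false := by simpa using e
      simp only [mask, rest, map_cons, this, filter_cons, bne, Bool.not_false, if_true, count_cons,
        length_cons] at *
      simp [ih]

lemma sl_map {α β : Type} (f : α → β) : ∀ (l : List α) (n : ℕ),
    (l.map f).sublistsLen n = (l.sublistsLen n).map (map f)
  | _, 0 => by simp
  | [], n + 1 => by simp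
  | x :: l, n + 1 => by
    rw [map_cons, sublistsLen_succ_cons, sublistsLen_succ_cons, sl_map f l, sl_map f l, map_append,
      map_map, map_map]
    rfl

/-- number of occurrences of a pattern list as a subsequence -/
def C : List Bool → List Bool → ℕ
  | [], _ => 1
  | _ :: _, [] => 0
  | a :: p, b :: l => C (a :: p) l + if a = b then C p l else 0

lemma count_C : ∀ (l p : List Bool), (l.sublistsLen p.length).count p = C p l
  | _, [] => by simp [C]
  | [], a :: p => by simp [C]
  | b :: l, a :: p => by
    rw [length_cons, sublistsLen_succ_cons, count_append, C, ← count_C l (a :: p), ← count_C l p]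
    congr 1
    split_ifs with h
    · subst h; exact count_map_of_injective _ _ cons_injective _
    · exact count_eq_zero.2 (by simp [Ne.symm h])

lemma C_snoc : ∀ (l p : List Bool) (a b : Bool),
    C (p ++ [a]) (l ++ [b]) = C (p ++ [a]) l + if a = b then C p l else 0
  | [], [], a, b => by simp [C]
  | [], c :: p, a, b => by cases p <;> simp [C]
  | d :: l, [], a, b => by
    have := C_snoc l [] a b
    simp only [nil_append, cons_append, C] at *
    omega
  | d :: l, c :: p, a, b => by
    have h1 := C_snoc l (c :: p) a b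
    have h2 := C_snoc l p a b
    simp only [cons_append, C] at *
    rw [h1, h2]; split_ifs <;> omega

lemma C_rev : ∀ (l p : List Bool), C p.reverse l.reverse = C p l
  | l, [] => by simp [C]
  | [], a :: p => by cases h : p.reverse <;> simp [C, h]
  | b :: l, a :: p => by
    rw [reverse_cons, reverse_cons, C_snoc, ← reverse_cons, C_rev l (a :: p), C_rev l p, C]

lemma C_false (p l : List Bool) (j : ℕ) : C (p ++ [true]) (l ++ replicate j false) = C (p ++ [true]) l := by
  induction j with
  | zero => simp
  | succ j ih => rw [replicate_succ', ← append_assoc, C_snoc, ih]; simp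

/-- `m` starts with `true` and ends with `true` followed by `j` times `false` -/
lemma shape : ∀ (l : List Bool), ∃ (r : List Bool) (j : ℕ), true :: l = r ++ replicate j false ∧
    r.head? = some true ∧ r.reverse.head? = some true := by
  intro l
  induction l using List.reverseRecOn with
  | nil => exact ⟨[true], 0, rfl, rfl, rfl⟩
  | append_singleton l b ih =>
    obtain ⟨r, j, h1, h2, h3⟩ := ih
    cases b
    · exact ⟨r, j + 1, by rw [← cons_append, h1, replicate_succ', append_assoc], h2, h3⟩
    · exact ⟨true :: (l ++ [true]), 0, by simp, rfl, by simp⟩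

def rho (m : List Bool) : List Bool := m.reverse.dropWhile (!·) ++ m.reverse.takeWhile (!·)

lemma rho_eq (r : List Bool) (j : ℕ) (h : r.reverse.head? = some true) :
    rho (r ++ replicate j false) = r.reverse ++ replicate j false := by
  obtain ⟨t, ht⟩ : ∃ t, r.reverse = true :: t := by
    cases h' : r.reverse with
    | nil => simp [h'] at h
    | cons a t => exact ⟨t, by simpa [h'] using h⟩
  simp [rho, ht, dropWhile_append, takeWhile_append]

def Phi : ℕ → List ℕ → List ℕ
  | 0, w => w
  | n + 1, w => merge (rho (mask w)) (Phi n (rest w))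

lemma cnt_filter (p : ℕ → Bool) : ∀ (w : List ℕ) (n : ℕ) (Q : List ℕ → Bool),
    (w.sublistsLen n).countP (fun s => s.all p && Q s) = ((w.filter p).sublistsLen n).countP Q
  | w, 0, Q => by simp [countP_cons]
  | [], n + 1, Q => by simp
  | x :: w, n + 1, Q => by
    rw [sublistsLen_succ_cons, countP_append, cnt_filter p w (n + 1) Q, countP_map]
    by_cases h : p x
    · rw [filter_cons_of_pos h, sublistsLen_succ_cons, countP_append, countP_map,
        ← cnt_filter p w n]
      congr 2; funext s; simp [h]
    · rw [filter_cons_of_neg h]; simp [h]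

lemma split (v : List ℕ) (q : List Bool) (hv : v.length = 4) (hq : q.length = 4)
    (H : ∀ a b c d : ℕ, 1 ≤ a → 1 ≤ b → 1 ≤ c → 1 ≤ d → (Same [a, b, c, d] v ↔ (mask [a, b, c, d] = q ∨
      ([a, b, c, d].all (· != 1) ∧ Same [a - 1, b - 1, c - 1, d - 1] v))))
    (H2 : q ≠ [false, false, false, false]) (w : List ℕ) (hw : ∀ x ∈ w, 1 ≤ x) :
    copies v w = C q (mask w) + copies v (rest w) := by
  rw [← count_C, copies, copies, mask, rest, sl_map, sl_map, countP_map,
    ← cnt_filter, count_eq_countP, countP_map, hv, hq]
  have : ∀ s ∈ w.sublistsLen 4, s.length = 4 ∧ ∀ x ∈ s, 1 ≤ x := fun s hs =>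
    ⟨length_of_sublistsLen hs, fun x hx => hw x ((mem_sublistsLen.1 hs).1.subset hx)⟩
  generalize w.sublistsLen 4 = L at *
  induction L with
  | nil => rfl
  | cons s L ih =>
    obtain ⟨h1, h2⟩ := this s (by simp)
    simp only [countP_cons, ih fun t ht => this t (by simp [ht])]
    match s, h1, h2 with
    | [a, b, c, d], _, h2 =>
      have := H a b c d (h2 _ (by simp)) (h2 _ (by simp)) (h2 _ (by simp)) (h2 _ (by simp))
      by_cases e1 : mask [a, b, c, d] = q <;> by_cases e2 : [a, b, c, d].all (· != 1)
      · exact (H2 (by rw [← e1]; simpa [mask] using e2)).elim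
      · have e3 : (mask [a, b, c, d] == q) = true := by simpa using e1
        simp only [mask] at *
        simp only [Function.comp, this.2 (Or.inl e1), e3, e2]; simp; omega
      all_goals simp only [mask] at *; simp_all; try omega

lemma same1 (a b c d : ℕ) : Same [a, b, c, d] [1, 1, 2, 1] ↔ a = b ∧ a = d ∧ a < c := by
  constructor
  · intro h
    have h1 := h 0 (by simp) 1 (by simp)
    have h2 := h 0 (by simp) 3 (by simp)
    have h3 := h 0 (by simp) 2 (by simp)
    simp at h1 h2 h3; omega
  · rintro ⟨rfl, rfl, h⟩
    intro i hi j hj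
    simp only [length_cons, length_nil] at hi hj
    interval_cases i <;> interval_cases j <;> simp <;> omega

lemma same2 (a b c d : ℕ) : Same [a, b, c, d] [1, 2, 1, 1] ↔ a = c ∧ a = d ∧ a < b := by
  constructor
  · intro h
    have h1 := h 0 (by simp) 1 (by simp)
    have h2 := h 0 (by simp) 3 (by simp)
    have h3 := h 0 (by simp) 2 (by simp)
    simp at h1 h2 h3; omega
  · rintro ⟨rfl, rfl, h⟩
    intro i hi j hj
    simp only [length_cons, length_nil] at hi hj
    interval_cases i <;> interval_cases j <;> simp <;> omega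

lemma sp1 (w : List ℕ) (hw : ∀ x ∈ w, 1 ≤ x) : copies [1, 1, 2, 1] w =
    C [true, true, false, true] (mask w) + copies [1, 1, 2, 1] (rest w) :=
  split _ _ rfl rfl (fun a b c d _ _ _ _ => by
    simp [same1, mask]; omega) (by simp) w hw

lemma sp2 (w : List ℕ) (hw : ∀ x ∈ w, 1 ≤ x) : copies [1, 2, 1, 1] w =
    C [true, false, true, true] (mask w) + copies [1, 2, 1, 1] (rest w) :=
  split _ _ rfl rfl (fun a b c d _ _ _ _ => by
    simp [same2, mask]; omega) (by simp) w hw

lemma main : ∀ (n : ℕ) (w : List ℕ), RGF w → w.length ≤ n → RGF (Phi n w) ∧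
    (Phi n w).length = w.length ∧ Phi n (Phi n w) = w ∧
    copies [1, 1, 2, 1] (Phi n w) = copies [1, 2, 1, 1] w ∧
    copies [1, 2, 1, 1] (Phi n w) = copies [1, 1, 2, 1] w
  | 0, w, h, hl => by
    have : w = [] := by simpa using hl
    subst this; simp [Phi, h, copies]
  | n + 1, [], h, _ => by simp [Phi, mask, rho, merge, h, copies]
  | n + 1, x :: l, h, hl => by
    have hx : x = 1 := by have := h.1; have := h.2.1; omega
    subst hx
    have pos := ok_pos _ _ h
    have e0 : rest (1 :: l) = rest l := by simp [rest]
    have hr : RGF (rest (1 :: l)) := by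
      rw [e0]; exact (ok_rest l 0 fun x hx => pos x (by simp [hx])).1 h.2.2
    have hl' : (rest (1 :: l)).length ≤ n := by
      rw [e0, rest, length_map]; exact (length_filter_le _ _).trans (by simpa using hl)
    obtain ⟨a1, a2, a3, a4, a5⟩ := main n _ hr hl'
    obtain ⟨r, j, h1, h2, h3⟩ := shape (mask l)
    have e1 : mask (1 :: l) = r ++ replicate j false := by rw [← h1]; simp [mask]
    have e2 : rho (mask (1 :: l)) = r.reverse ++ replicate j false := by rw [e1, rho_eq _ _ h3]
    obtain ⟨b1, b2, b3⟩ := merge_spec (rho (mask (1 :: l))) (Phi n (rest (1 :: l))) (by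
      rw [a2, ← len_rest, e2, e1]; simp) (ok_pos _ _ a1)
    rw [← Phi] at b1 b2 b3
    refine ⟨?_, ?_, ?_, ?_, ?_⟩
    · obtain ⟨t, ht⟩ : ∃ t, r.reverse = true :: t := by
        cases h' : r.reverse with
        | nil => simp [h'] at h3
        | cons a t => exact ⟨t, by simpa [h'] using h3⟩
      have e3 : Phi (n + 1) (1 :: l) = 1 :: merge (t ++ replicate j false) (Phi n (rest (1 :: l))) := by
        rw [Phi, e2, ht]; rfl
      rw [e3] at b2 b3 ⊢
      refine ⟨le_rfl, le_rfl, (ok_rest _ 0 fun x hx => b3 x (by simp [hx])).2 ?_⟩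
      have : ∀ u, rest (1 :: u) = rest u := fun u => by simp [rest]
      rw [← this, b2]; exact a1
    · have := congrArg length b1
      have h4 := congrArg length e1
      rw [e2] at this
      simp [mask] at this h4 ⊢
      omega
    · rw [Phi, b1, b2, a3, e2, rho_eq _ _ (by simpa using h2), reverse_reverse, ← e1, merge_self _ pos]
    · rw [sp1 _ b3, sp2 _ pos, b1, b2, a4, e2, e1]
      congr 1
      exact (C_false [true, true, false] _ j).trans ((C_rev r [true, false, true, true]).trans
        (C_false [true, false, true] _ j).symm)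
    · rw [sp2 _ b3, sp1 _ pos, b1, b2, a5, e2, e1]
      congr 1
      exact (C_false [true, false, true] _ j).trans ((C_rev r [true, true, false, true]).trans
        (C_false [true, true, false] _ j).symm)

theorem result : ∃ v w : List ℕ, RGF v ∧ RGF w ∧ v ≠ w ∧ ∀ n k, R n k v = R n k w := by
  refine ⟨[1, 1, 2, 1], [1, 2, 1, 1], by simp [RGF, ok], by simp [RGF, ok], by simp, fun n k => ?_⟩
  refine Set.ncard_congr (fun w _ => Phi n w) ?_ ?_ ?_
  · rintro w ⟨h1, h2, h3⟩
    obtain ⟨a1, a2, -, -, a5⟩ := main n w h1 h2.le
    exact ⟨a1, a2.trans h2, a5.trans h3⟩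
  · rintro w w' ⟨h1, h2, -⟩ ⟨h1', h2', -⟩ e
    rw [← (main n w h1 h2.le).2.2.1, e, (main n w' h1' h2'.le).2.2.1]
  · rintro w ⟨h1, h2, h3⟩
    obtain ⟨a1, a2, a3, a4, -⟩ := main n w h1 h2.le
    exact ⟨Phi n w, ⟨a1, a2.trans h2, a4.trans h3⟩, a3⟩

end Pool.Agent.Results.MP_2348bc_co.Pair
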